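import Mathlib

/-!
# Lie groups with Lie exponent close to two

The Lie exponent of Blasiak, Cohn, Grochow, Pratt and Umans of the Heisenberg group of dimension
`2 n + 1` is at most `2 + 1 / n`: three pairwise transverse Lagrangian subspaces whose Kashiwara
form is positive definite are subgroups with the triple product property.  In particular there
are Lie groups of Lie exponent less than three.
-/

set_option autoImplicit false

namespace Pool.Agent.Results.MP_1ece31_lc.LieExponent

open scoped Manifold ContDiff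
open Module

section Definitions

variable (E : Type) [NormedAddCommGroup E] [NormedSpace ℝ E]
  (G : Type) [TopologicalSpace G] [ChartedSpace E G]

/-- `M` is a (nonempty, embedded, smooth) submanifold of dimension `m` of the smooth manifold `G`
modelled on `E`: near each of its points, it is a linear subspace of dimension `m` in a suitable
smooth chart of `G`. -/
def IsSubmanifold (m : ℕ) (M : Set G) : Prop :=
  M.Nonempty ∧ ∀ x ∈ M, ∃ e ∈ IsManifold.maximalAtlas 𝓘(ℝ, E) ∞ G, x ∈ e.source ∧
    ∃ W : Submodule ℝ E, finrank ℝ W = m ∧ ∀ y ∈ e.source, y ∈ M ↔ e y ∈ W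

variable {G} in
/-- `Q(X) = {x x'⁻¹ : x, x' ∈ X}`. -/
def quotientSet [Group G] (X : Set G) : Set G := {g | ∃ x ∈ X, ∃ y ∈ X, g = x * y⁻¹}

variable {G} in
/-- The triple product property. -/
def TripleProductProperty [Group G] (S T U : Set G) : Prop :=
  ∀ s ∈ quotientSet S, ∀ t ∈ quotientSet T, ∀ u ∈ quotientSet U,
    s * t * u = 1 → s = 1 ∧ t = 1 ∧ u = 1

/-- The rank of a Lie group: the dimension of a Cartan subalgebra of its Lie algebra
(all Cartan subalgebras have the same dimension). -/
noncomputable def rank [Group G] [CompleteSpace E] [LieGroup 𝓘(ℝ, E) (minSmoothness ℝ 3) G] : ℕ :=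
  sInf {r | ∃ H : LieSubalgebra ℝ (GroupLieAlgebra 𝓘(ℝ, E) G),
    H.IsCartanSubalgebra ∧ finrank ℝ H = r}

/-- The Lie exponent of a Lie group. -/
noncomputable def lieExponent [Group G] [CompleteSpace E]
    [LieGroup 𝓘(ℝ, E) (minSmoothness ℝ 3) G] : EReal :=
  sInf {w | ∃ (M₁ M₂ M₃ : Set G) (m₁ m₂ m₃ : ℕ),
    IsSubmanifold E G m₁ M₁ ∧ IsSubmanifold E G m₂ M₂ ∧ IsSubmanifold E G m₃ M₃ ∧
    TripleProductProperty M₁ M₂ M₃ ∧
    ((finrank ℝ E : ℝ) - rank E G) / 2 < ((m₁ : ℝ) + m₂ + m₃) / 3 ∧
    w = ((rank E G / (((m₁ : ℝ) + m₂ + m₃) / 3 - ((finrank ℝ E : ℝ) - rank E G) / 2) : ℝ) :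
      EReal)}

end Definitions

section Heisenberg

/-- the model space of the Heisenberg group -/
abbrev Mod (n : ℕ) : Type := ((Fin n → ℝ) × (Fin n → ℝ)) × ℝ

/-- the symplectic form -/
def om {n : ℕ} (p q : (Fin n → ℝ) × (Fin n → ℝ)) : ℝ := p.1 ⬝ᵥ q.2 - q.1 ⬝ᵥ p.2

theorem om_add_left {n : ℕ} (p p' q : (Fin n → ℝ) × (Fin n → ℝ)) :
    om (p + p') q = om p q + om p' q := by
  simp only [om, Prod.fst_add, Prod.snd_add, add_dotProduct, dotProduct_add]
  ring

theorem om_add_right {n : ℕ} (p q q' : (Fin n → ℝ) × (Fin n → ℝ)) :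
    om p (q + q') = om p q + om p q' := by
  simp only [om, Prod.fst_add, Prod.snd_add, add_dotProduct, dotProduct_add]
  ring

theorem om_neg_left {n : ℕ} (p q : (Fin n → ℝ) × (Fin n → ℝ)) : om (-p) q = - om p q := by
  simp only [om, Prod.fst_neg, Prod.snd_neg, neg_dotProduct, dotProduct_neg]
  ring

theorem om_neg_right {n : ℕ} (p q : (Fin n → ℝ) × (Fin n → ℝ)) : om p (-q) = - om p q := by
  simp only [om, Prod.fst_neg, Prod.snd_neg, neg_dotProduct, dotProduct_neg]
  ring

theorem om_smul_left {n : ℕ} (c : ℝ) (p q : (Fin n → ℝ) × (Fin n → ℝ)) :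
    om (c • p) q = c * om p q := by
  simp only [om, Prod.smul_fst, Prod.smul_snd, smul_dotProduct, dotProduct_smul, smul_eq_mul]
  ring

theorem om_smul_right {n : ℕ} (c : ℝ) (p q : (Fin n → ℝ) × (Fin n → ℝ)) :
    om p (c • q) = c * om p q := by
  simp only [om, Prod.smul_fst, Prod.smul_snd, smul_dotProduct, dotProduct_smul, smul_eq_mul]
  ring

theorem om_self {n : ℕ} (p : (Fin n → ℝ) × (Fin n → ℝ)) : om p p = 0 := by
  simp [om]

theorem om_zero_left {n : ℕ} (p : (Fin n → ℝ) × (Fin n → ℝ)) : om 0 p = 0 := by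
  simp [om]

theorem om_zero_right {n : ℕ} (p : (Fin n → ℝ) × (Fin n → ℝ)) : om p 0 = 0 := by
  simp [om]

/-- the inverse of the Heisenberg group -/
def hneg {n : ℕ} (a : Mod n) : Mod n := -a

/-- the multiplication of the Heisenberg group -/
noncomputable def hmul {n : ℕ} (a b : Mod n) : Mod n := (a.1 + b.1, a.2 + b.2 + om a.1 b.1 / 2)

theorem hmul_assoc {n : ℕ} (a b c : Mod n) : hmul (hmul a b) c = hmul a (hmul b c) := by
  refine Prod.ext ?_ ?_
  · simp only [hmul]; abel
  · simp only [hmul, om_add_left, om_add_right]; ring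

theorem hmul_zero_left {n : ℕ} (a : Mod n) : hmul 0 a = a := by
  refine Prod.ext ?_ ?_
  · simp [hmul]
  · simp [hmul, om_zero_left]

theorem hmul_zero_right {n : ℕ} (a : Mod n) : hmul a 0 = a := by
  refine Prod.ext ?_ ?_
  · simp [hmul]
  · simp [hmul, om_zero_right]

theorem hneg_hmul {n : ℕ} (a : Mod n) : hmul (hneg a) a = 0 := by
  refine Prod.ext ?_ ?_
  · simp [hmul, hneg]
  · simp [hmul, hneg, om_neg_left, om_self]

/-- The Heisenberg group of dimension `2 n + 1`. -/
def Heis (n : ℕ) : Type := Mod n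

instance (n : ℕ) : TopologicalSpace (Heis n) := inferInstanceAs (TopologicalSpace (Mod n))
instance (n : ℕ) : T2Space (Heis n) := inferInstanceAs (T2Space (Mod n))
instance (n : ℕ) : SecondCountableTopology (Heis n) :=
  inferInstanceAs (SecondCountableTopology (Mod n))
instance (n : ℕ) : ChartedSpace (Mod n) (Heis n) := inferInstanceAs (ChartedSpace (Mod n) (Mod n))
instance (n : ℕ) (k : WithTop ℕ∞) : IsManifold 𝓘(ℝ, Mod n) k (Heis n) :=
  inferInstanceAs (IsManifold 𝓘(ℝ, Mod n) k (Mod n))

noncomputable instance (n : ℕ) : Group (Heis n) where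
  mul a b := hmul (n := n) a b
  one := (0 : Mod n)
  inv a := hneg (n := n) a
  mul_assoc := hmul_assoc (n := n)
  one_mul := hmul_zero_left (n := n)
  mul_one := hmul_zero_right (n := n)
  inv_mul_cancel := hneg_hmul (n := n)

theorem mul_def' {n : ℕ} (a b : Heis n) : a * b = hmul (n := n) a b := rfl
theorem inv_def' {n : ℕ} (a : Heis n) : a⁻¹ = hneg (n := n) a := rfl
theorem one_def' {n : ℕ} : (1 : Heis n) = (0 : Mod n) := rfl

theorem contDiff_dotProduct {n : ℕ} {F : Type} [NormedAddCommGroup F] [NormedSpace ℝ F]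
    {k : WithTop ℕ∞} {f g : F → (Fin n → ℝ)} (hf : ContDiff ℝ k f) (hg : ContDiff ℝ k g) :
    ContDiff ℝ k fun x => f x ⬝ᵥ g x := by
  unfold dotProduct
  refine ContDiff.sum fun i _ => ?_
  exact (contDiff_pi.1 hf i).mul (contDiff_pi.1 hg i)

theorem contDiff_hmul {n : ℕ} {k : WithTop ℕ∞} :
    ContDiff ℝ k (fun p : Mod n × Mod n => hmul p.1 p.2) := by
  unfold hmul om
  have h1 : ContDiff ℝ k (fun p : Mod n × Mod n => p.1.1.1) := by fun_prop
  have h2 : ContDiff ℝ k (fun p : Mod n × Mod n => p.1.1.2) := by fun_prop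
  have h3 : ContDiff ℝ k (fun p : Mod n × Mod n => p.2.1.1) := by fun_prop
  have h4 : ContDiff ℝ k (fun p : Mod n × Mod n => p.2.1.2) := by fun_prop
  have h5 := contDiff_dotProduct h1 h4
  have h6 := contDiff_dotProduct h3 h2
  refine ContDiff.prodMk (by fun_prop) ?_
  exact ContDiff.add (by fun_prop) ((h5.sub h6).div_const 2)

theorem contMDiff_hmul {n : ℕ} {k : WithTop ℕ∞} :
    ContMDiff (𝓘(ℝ, Mod n).prod 𝓘(ℝ, Mod n)) 𝓘(ℝ, Mod n) k
      (fun p : Mod n × Mod n => hmul p.1 p.2) := by
  rw [contMDiff_iff]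
  refine ⟨contDiff_hmul (k := k).continuous, fun x y => ?_⟩
  simp only [mfld_simps, chartAt_self_eq]
  rw [contDiffOn_univ]
  exact contDiff_hmul

instance (n : ℕ) (k : WithTop ℕ∞) : LieGroup 𝓘(ℝ, Mod n) k (Heis n) where
  contMDiff_mul := contMDiff_hmul
  contMDiff_inv := (contDiff_neg (𝕜 := ℝ) (F := Mod n) (n := k)).contMDiff

/-- the value of an invariant vector field -/
noncomputable def fld {n : ℕ} (v g : Mod n) : Mod n := (v.1, v.2 + om g.1 v.1 / 2)

theorem hasFDerivAt_hmul {n : ℕ} (g x : Mod n) :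
    HasFDerivAt (fun y : Mod n => hmul g y)
      (LinearMap.toContinuousLinearMap
        ({ toFun := fun v => fld v g
           map_add' := fun v w => by
            refine Prod.ext ?_ ?_
            · simp [fld]
            · simp only [fld, Prod.fst_add, Prod.snd_add, om_add_right]; ring
           map_smul' := fun c v => by
            refine Prod.ext ?_ ?_
            · simp [fld]
            · simp only [fld, Prod.smul_fst, Prod.smul_snd, om_smul_right, smul_eq_mul,
                RingHom.id_apply]; ring } : Mod n →ₗ[ℝ] Mod n)) x := by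
  set L : Mod n →L[ℝ] Mod n := LinearMap.toContinuousLinearMap
        ({ toFun := fun v => fld v g
           map_add' := fun v w => by
            refine Prod.ext ?_ ?_
            · simp [fld]
            · simp only [fld, Prod.fst_add, Prod.snd_add, om_add_right]; ring
           map_smul' := fun c v => by
            refine Prod.ext ?_ ?_
            · simp [fld]
            · simp only [fld, Prod.smul_fst, Prod.smul_snd, om_smul_right, smul_eq_mul,
                RingHom.id_apply]; ring } : Mod n →ₗ[ℝ] Mod n) with hL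
  have h : (fun y : Mod n => hmul g y) = fun y => g + L y := by
    funext y
    rw [hL]
    refine Prod.ext ?_ ?_
    · simp [hmul, fld]
    · simp [hmul, fld, add_assoc]
  rw [h]
  exact L.hasFDerivAt.const_add g

theorem hasFDerivAt_fld {n : ℕ} (v x : Mod n) :
    HasFDerivAt (fun g : Mod n => fld v g)
      (LinearMap.toContinuousLinearMap
        ({ toFun := fun g => (0, om g.1 v.1 / 2)
           map_add' := fun g h => by
            refine Prod.ext ?_ ?_
            · simp
            · simp only [Prod.fst_add, Prod.snd_add, om_add_left]; ring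
           map_smul' := fun c g => by
            refine Prod.ext ?_ ?_
            · simp
            · simp only [Prod.smul_fst, Prod.smul_snd, om_smul_left, smul_eq_mul,
                RingHom.id_apply]; ring } : Mod n →ₗ[ℝ] Mod n)) x := by
  set L : Mod n →L[ℝ] Mod n := LinearMap.toContinuousLinearMap
        ({ toFun := fun g => (0, om g.1 v.1 / 2)
           map_add' := fun g h => by
            refine Prod.ext ?_ ?_
            · simp
            · simp only [Prod.fst_add, Prod.snd_add, om_add_left]; ring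
           map_smul' := fun c g => by
            refine Prod.ext ?_ ?_
            · simp
            · simp only [Prod.smul_fst, Prod.smul_snd, om_smul_left, smul_eq_mul,
                RingHom.id_apply]; ring } : Mod n →ₗ[ℝ] Mod n) with hL
  have h : (fun g : Mod n => fld v g) = fun g => v + L g := by
    funext g
    rw [hL]
    refine Prod.ext ?_ ?_
    · simp [fld]
    · simp [fld]
  rw [h]
  exact L.hasFDerivAt.const_add v

theorem mulInvariantVectorField_eq {n : ℕ} (v : Mod n) (g : Heis n) :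
    (mulInvariantVectorField (I := 𝓘(ℝ, Mod n)) (G := Heis n) v g : Mod n) =
      fld (n := n) v g := by
  have h : (mulInvariantVectorField (I := 𝓘(ℝ, Mod n)) (G := Heis n) v g : Mod n) =
      (mfderiv 𝓘(ℝ, Mod n) 𝓘(ℝ, Mod n) (fun y : Mod n => hmul (n := n) g y) (0 : Mod n) :
        Mod n →L[ℝ] Mod n) v := rfl
  rw [h, mfderiv_eq_fderiv, (hasFDerivAt_hmul (n := n) g 0).fderiv]
  rfl

theorem mlie_eq {F : Type} [NormedAddCommGroup F] [NormedSpace ℝ F]
    (V W : (x : F) → TangentSpace 𝓘(ℝ, F) x) (x : F) :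
    VectorField.mlieBracket 𝓘(ℝ, F) V W x = VectorField.lieBracket ℝ V W x := by
  rw [← VectorField.mlieBracketWithin_univ, VectorField.mlieBracketWithin_eq_lieBracketWithin]
  exact congrFun (VectorField.lieBracketWithin_univ (𝕜 := ℝ) (V := (V : F → F))
    (W := (W : F → F))) x

/-- the Lie algebra of the Heisenberg group -/
abbrev LA (n : ℕ) : Type := GroupLieAlgebra 𝓘(ℝ, Mod n) (Heis n)

/-- the coordinates of an element of the Lie algebra -/
def co {n : ℕ} (v : LA n) : Mod n := v

theorem bracket_eq {n : ℕ} (v w : LA n) : co ⁅v, w⁆ = (0, om (co v).1 (co w).1) := by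
  have h : co ⁅v, w⁆ =
      VectorField.mlieBracket 𝓘(ℝ, Mod n) (M := Mod n) (fun g => fld (co v) g)
        (fun g => fld (co w) g) (0 : Mod n) := by
    rw [GroupLieAlgebra.bracket_def]
    have h1 : (mulInvariantVectorField (I := 𝓘(ℝ, Mod n)) (G := Heis n) v) =
        fun g => fld (n := n) (co v) g := funext fun g => mulInvariantVectorField_eq (co v) g
    have h2 : (mulInvariantVectorField (I := 𝓘(ℝ, Mod n)) (G := Heis n) w) =
        fun g => fld (n := n) (co w) g := funext fun g => mulInvariantVectorField_eq (co w) g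
    rw [h1, h2]
    rfl
  refine (h.trans (mlie_eq (F := Mod n) (fun g => fld (co v) g) (fun g => fld (co w) g) 0)).trans ?_
  show fderiv ℝ (fun g : Mod n => fld (co w) g) 0 (fld (co v) 0) -
    fderiv ℝ (fun g : Mod n => fld (co v) g) 0 (fld (co w) 0) = _
  rw [(hasFDerivAt_fld (co w) 0).fderiv, (hasFDerivAt_fld (co v) 0).fderiv]
  refine Prod.ext ?_ ?_
  · simp [fld]
  · simp [fld, om]
    ring

theorem isCartan_top (n : ℕ) : (⊤ : LieSubalgebra ℝ (LA n)).IsCartanSubalgebra := by
  have h0 : ∀ x y z : LA n, ⁅x, ⁅y, z⁆⁆ = 0 := by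
    intro x y z
    have h1 := bracket_eq x ⁅y, z⁆
    rw [bracket_eq y z] at h1
    simp only [om_zero_right] at h1
    exact h1
  have h1 : LieRing.IsNilpotent (LA n) := by
    have : LieModule.IsNilpotent (LA n) (LA n) := by
      rw [LieModule.isNilpotent_iff ℝ]
      refine ⟨2, ?_⟩
      rw [LieModule.lowerCentralSeries_succ, LieSubmodule.lie_eq_bot_iff]
      intro x _ m hm
      have h2 : LieModule.lowerCentralSeries ℝ (LA n) (LA n) 1 ≤
          LieModule.maxTrivSubmodule ℝ (LA n) (LA n) := by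
        rw [LieModule.lowerCentralSeries_succ, LieSubmodule.lie_le_iff]
        intro y _ z _
        rw [LieModule.mem_maxTrivSubmodule]
        intro x
        exact h0 x y z
      exact (LieModule.mem_maxTrivSubmodule ℝ (LA n) (LA n) m).1 (h2 hm) x
    exact this
  infer_instance

theorem cartan_eq_top {n : ℕ} (H : LieSubalgebra ℝ (LA n)) (hH : H.IsCartanSubalgebra) :
    H = ⊤ := by
  have hz : ∀ z : LA n, (co z).1 = 0 → z ∈ H := by
    intro z hz
    rw [← hH.self_normalizing, LieSubalgebra.mem_normalizer_iff]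
    intro y _
    have h1 := bracket_eq z y
    rw [hz, om_zero_left] at h1
    have h2 : ⁅z, y⁆ = 0 := h1
    rw [h2]
    exact H.zero_mem
  rw [eq_top_iff]
  intro x _
  rw [← hH.self_normalizing, LieSubalgebra.mem_normalizer_iff]
  intro y _
  refine hz _ ?_
  rw [bracket_eq]

theorem finrank_LA (n : ℕ) : finrank ℝ (Mod n) = 2 * n + 1 := by
  simp
  ring

theorem rank_heis (n : ℕ) : rank (Mod n) (Heis n) = 2 * n + 1 := by
  have h : {r | ∃ H : LieSubalgebra ℝ (LA n), H.IsCartanSubalgebra ∧ finrank ℝ H = r} =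
      {2 * n + 1} := by
    have ht : finrank ℝ (⊤ : LieSubalgebra ℝ (LA n)) = 2 * n + 1 := by
      rw [← finrank_LA n]
      exact finrank_top ℝ (Mod n)
    ext r
    simp only [Set.mem_ofPred_eq, Set.mem_singleton_iff]
    constructor
    · rintro ⟨H, hH, rfl⟩
      rw [cartan_eq_top H hH]
      exact ht
    · rintro rfl
      exact ⟨⊤, isCartan_top n, ht⟩
  unfold rank
  rw [h]
  exact csInf_singleton _

/-- the three Lagrangian subspaces -/
def f₁ (n : ℕ) : (Fin n → ℝ) →ₗ[ℝ] Mod n where
  toFun x := ((x, 0), 0)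
  map_add' x y := by simp
  map_smul' c x := by simp

def f₂ (n : ℕ) : (Fin n → ℝ) →ₗ[ℝ] Mod n where
  toFun x := ((0, x), 0)
  map_add' x y := by simp
  map_smul' c x := by simp

def f₃ (n : ℕ) : (Fin n → ℝ) →ₗ[ℝ] Mod n where
  toFun x := ((x, x), 0)
  map_add' x y := by simp
  map_smul' c x := by simp

/-- the range of a linear map, as a subset of the Heisenberg group -/
def rng {n : ℕ} (f : (Fin n → ℝ) →ₗ[ℝ] Mod n) : Set (Heis n) := (LinearMap.range f : Set (Mod n))

/-- a linear subspace is a submanifold -/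
theorem isSubmanifold_range {n : ℕ} (f : (Fin n → ℝ) →ₗ[ℝ] Mod n) (hf : Function.Injective f) :
    IsSubmanifold (Mod n) (Heis n) n (rng f) := by
  refine ⟨⟨(0 : Mod n), (LinearMap.range f).zero_mem⟩, fun x hx => ?_⟩
  refine ⟨chartAt (Mod n) x, IsManifold.chart_mem_maximalAtlas x, mem_chart_source _ x,
    LinearMap.range f, ?_, fun y _ => Iff.rfl⟩
  rw [LinearMap.finrank_range_of_inj hf]
  simp

theorem quotient_range {n : ℕ} (f : (Fin n → ℝ) →ₗ[ℝ] Mod n)
    (hf : ∀ x y, om (f x).1 (f y).1 = 0) (hf2 : ∀ x, (f x).2 = 0) (g : Heis n)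
    (hg : g ∈ quotientSet (rng f)) :
    ∃ x, (g : Mod n) = f x := by
  obtain ⟨a, ⟨x, hx⟩, b, ⟨y, hy⟩, hab⟩ := hg
  refine ⟨x - y, ?_⟩
  have h : (g : Mod n) = hmul (f x) (hneg (f y)) := by
    rw [hx, hy]
    exact hab
  rw [h]
  refine Prod.ext ?_ ?_
  · simp [hmul, hneg, sub_eq_add_neg]
  · simp [hmul, hneg, hf2, om_neg_right, hf]

theorem tpp (n : ℕ) : TripleProductProperty (G := Heis n) (rng (f₁ n)) (rng (f₂ n))
    (rng (f₃ n)) := by
  intro s hs t ht u hu h
  obtain ⟨x, hx⟩ := quotient_range (f₁ n) (fun x y => by simp [om, f₁]) (fun x => rfl) s hs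
  obtain ⟨y, hy⟩ := quotient_range (f₂ n) (fun x y => by simp [om, f₂]) (fun x => rfl) t ht
  obtain ⟨z, hz⟩ := quotient_range (f₃ n) (fun x y => by
    simp only [om, f₃, LinearMap.coe_mk, AddHom.coe_mk]
    rw [dotProduct_comm, sub_self]) (fun x => rfl) u hu
  have h1 : hmul (hmul (f₁ n x) (f₂ n y)) (f₃ n z) = 0 := by
    rw [← hx, ← hy, ← hz]
    exact h
  have e1 : x + z = 0 := by
    have := congrArg (fun p : Mod n => p.1.1) h1
    simpa [hmul, f₁, f₂, f₃] using this
  have e2 : y + z = 0 := by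
    have := congrArg (fun p : Mod n => p.1.2) h1
    simpa [hmul, f₁, f₂, f₃] using this
  have e3 : x ⬝ᵥ y + (x ⬝ᵥ z - z ⬝ᵥ y) = 0 := by
    have := congrArg (fun p : Mod n => p.2) h1
    simp only [hmul, f₁, f₂, f₃, om, LinearMap.coe_mk, AddHom.coe_mk, Prod.snd_zero, add_zero,
      zero_add, Prod.fst_add, Prod.snd_add, dotProduct_zero, sub_zero] at this
    linarith
  have hxz : x = -z := eq_neg_of_add_eq_zero_left e1
  have hyz : y = -z := eq_neg_of_add_eq_zero_left e2
  rw [hxz, hyz] at e3
  simp only [neg_dotProduct, dotProduct_neg, neg_neg] at e3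
  have h0 : z ⬝ᵥ z = 0 := by linarith
  have hz0 : z = 0 := dotProduct_self_eq_zero.1 h0
  rw [hz0, neg_zero] at hxz hyz
  refine ⟨?_, ?_, ?_⟩
  · exact hx.trans ((congrArg (f₁ n) hxz).trans (map_zero _))
  · exact hy.trans ((congrArg (f₂ n) hyz).trans (map_zero _))
  · exact hz.trans ((congrArg (f₃ n) hz0).trans (map_zero _))

theorem lieExponent_heis_le (n : ℕ) (hn : 0 < n) :
    lieExponent (Mod n) (Heis n) ≤ ((2 + 1 / n : ℝ) : EReal) := by
  have hn' : (0 : ℝ) < n := by exact_mod_cast hn
  refine sInf_le ⟨_, _, _, n, n, n, isSubmanifold_range (f₁ n) ?_, isSubmanifold_range (f₂ n) ?_,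
    isSubmanifold_range (f₃ n) ?_, tpp n, ?_, ?_⟩
  · intro x y h
    exact congrArg (fun p : Mod n => p.1.1) h
  · intro x y h
    exact congrArg (fun p : Mod n => p.1.2) h
  · intro x y h
    exact congrArg (fun p : Mod n => p.1.1) h
  · rw [rank_heis, finrank_LA]
    simp only [sub_self, zero_div]
    positivity
  · rw [rank_heis, finrank_LA]
    congr 1
    push_cast
    field_simp
    ring

end Heisenberg

/-- **Main theorem.**  For every `ε > 0` there is a real Lie group `G` of positive dimension whose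
Lie exponent is less than `2 + ε`; in particular there are Lie groups of Lie exponent less than
three. -/
theorem result (ε : ℝ) (hε : 0 < ε) :
    ∃ (E : Type) (_ : NormedAddCommGroup E) (_ : NormedSpace ℝ E) (_ : FiniteDimensional ℝ E)
      (_ : CompleteSpace E) (G : Type) (_ : TopologicalSpace G) (_ : ChartedSpace E G)
      (_ : T2Space G) (_ : SecondCountableTopology G) (_ : ConnectedSpace G) (_ : Group G)
      (_ : LieGroup 𝓘(ℝ, E) ∞ G) (_ : LieGroup 𝓘(ℝ, E) (minSmoothness ℝ 3) G),
      0 < finrank ℝ E ∧ lieExponent E G < ((2 + ε : ℝ) : EReal) := by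
  obtain ⟨n, hn⟩ := exists_nat_gt (1 / ε)
  have hn0 : 0 < n := by
    have : (0 : ℝ) < n := lt_trans (by positivity) hn
    exact_mod_cast this
  have hn' : (0 : ℝ) < n := by exact_mod_cast hn0
  refine ⟨Mod n, inferInstance, inferInstance, inferInstance, inferInstance, Heis n,
    inferInstance, inferInstance, inferInstance, inferInstance,
    inferInstanceAs (ConnectedSpace (Mod n)), inferInstance, inferInstance, inferInstance, ?_, ?_⟩
  · rw [finrank_LA]
    omega
  · refine lt_of_le_of_lt (lieExponent_heis_le n hn0) ?_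
    rw [EReal.coe_lt_coe_iff]
    have : 1 / (n : ℝ) < ε := by
      rw [div_lt_iff₀ hn']
      rw [div_lt_iff₀ hε] at hn
      linarith
    linarith

end Pool.Agent.Results.MP_1ece31_lc.LieExponent
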